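import Pool.Agent.Helper348.AmFinal

set_option autoImplicit false

/-!
# A compact set of non-synthesis with amenable radical algebra `R_E`

Here `Γ = {±1}^ℕ` is the (compact, metrizable) Cantor group and `G = PontryaginDual Γ` is its
discrete dual, so `L¹(G) = ℓ¹(G)` and `Γ` is the dual group of `G`.

All definitions used in the statement (`FA Γ` is `A(Γ)` with its norm, `IE E` is `I(E)`, `JEi E` is
`J(E)`, `AE E` is `A_E`, `RE E` is `R_E`, and `Amenable`) are in `Pool/Agent/Helper348/AmDefs.lean`.
-/

namespace Pool.Agent.Results.MP_bf3635_an.AmenableRadical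

/-- There is a compact subset `E` of the Cantor group `Γ = {±1}^ℕ` that fails spectral synthesis and
for which the radical Banach algebra `R_E = I(E) / closure J(E)` is amenable. -/
theorem result.{v} : ∃ E : Set (ℕ → ℤˣ), IsCompact E ∧ Am.FailsSynthesis E ∧
    Am.Amenable.{v} (Am.RE E) :=
  Am.exists_amenable

end Pool.Agent.Results.MP_bf3635_an.AmenableRadical
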